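import Mathlib

/-! Abstract part: a spectral family of projections `P S` on a Hilbert space `X` and an operator `K`
with four properties give a strongly closed, non reflexive Boolean algebra of subspaces of
`X ⊕ X`. -/

open MeasureTheory
open scoped InnerProductSpace symmDiff

set_option linter.dupNamespace false

namespace Pool.Agent.P.MP_c2be6c_an

structure Setup (Ω : Type) [MeasurableSpace Ω] (μ : Measure Ω) (X : Type)
    [NormedAddCommGroup X] [InnerProductSpace ℂ X] where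
  P : Set Ω → X →L[ℂ] X
  K : X →L[ℂ] X
  one : X
  P_inter : ∀ S T, MeasurableSet S → MeasurableSet T → ∀ f, P S (P T f) = P (S ∩ T) f
  P_compl : ∀ S, MeasurableSet S → ∀ f, P S f + P Sᶜ f = f
  P_adj : ∀ S, MeasurableSet S → ∀ f g, ⟪P S f, g⟫_ℂ = ⟪f, P S g⟫_ℂ
  P_le : ∀ S, MeasurableSet S → ∀ f, ‖P S f‖ ≤ ‖f‖
  P_small : ∀ f, ∀ ε > 0, ∃ δ > 0, ∀ S, MeasurableSet S → μ.real S ≤ δ → ‖P S f‖ ≤ ε
  P_one : ∀ S, MeasurableSet S → ‖P S one‖ ^ 2 = μ.real S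
  P_lim : ∀ g, ∃ S, MeasurableSet S ∧ ∀ T, MeasurableSet T →
    μ.real (T ∆ S) ≤ 4 * ‖P T one - g‖ ^ 2
  K_inj : ∀ h, K h = 0 → h = 0
  K_corr : ∀ A, MeasurableSet A → 0 < μ.real A → ∃ C > 0, ∀ f, ∃ u h,
    P Aᶜ u = 0 ∧ K h = f - u ∧ ‖h‖ ≤ C * ‖f‖
  K_dense : ∀ f, ∀ ε > 0, ∃ h, ‖f - K h‖ ≤ ε
  K_sing : ∀ f (C : ℝ), (∀ S, MeasurableSet S → ∃ h, K h = P S f ∧ ‖h‖ ≤ C) → f = 0

namespace Setup

variable {Ω : Type} [MeasurableSpace Ω] {μ : Measure Ω} [IsProbabilityMeasure μ] {X : Type}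
  [NormedAddCommGroup X] [InnerProductSpace ℂ X] [CompleteSpace X] (D : Setup Ω μ X)

omit [IsProbabilityMeasure μ] [CompleteSpace X] in
theorem P_null {S : Set Ω} (hS : MeasurableSet S) (h0 : μ.real S = 0) (f : X) : D.P S f = 0 := by
  rw [← norm_le_zero_iff]
  refine le_of_forall_pos_le_add fun ε hε => ?_
  obtain ⟨δ, hδ, h⟩ := D.P_small f ε hε
  simpa using h S hS (h0 ▸ hδ.le)

omit [IsProbabilityMeasure μ] [CompleteSpace X] in
theorem P_empty (f : X) : D.P ∅ f = 0 := D.P_null MeasurableSet.empty (by simp) f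

omit [IsProbabilityMeasure μ] [CompleteSpace X] in
theorem P_univ (f : X) : D.P Set.univ f = f := by
  have := D.P_compl ∅ MeasurableSet.empty f
  rwa [D.P_empty, zero_add, Set.compl_empty] at this

omit [IsProbabilityMeasure μ] [CompleteSpace X] in
theorem P_split {S T : Set Ω} (hS : MeasurableSet S) (hT : MeasurableSet T) (f : X) :
    D.P S f = D.P (S ∩ T) f + D.P (S ∩ Tᶜ) f := by
  rw [← D.P_inter S T hS hT, ← D.P_inter S Tᶜ hS hT.compl, ← map_add, D.P_compl T hT]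

omit [IsProbabilityMeasure μ] [CompleteSpace X] in
/-- vanishing off a set is monotone -/
theorem off_mono {S T : Set Ω} (hS : MeasurableSet S) (hT : MeasurableSet T) (hST : S ⊆ T) {f : X}
    (h : D.P Sᶜ f = 0) : D.P Tᶜ f = 0 := by
  have : Tᶜ = Tᶜ ∩ Sᶜ := by
    ext x; simp only [Set.mem_inter_iff, Set.mem_compl_iff]; exact ⟨fun h => ⟨h, fun h' => h (hST h')⟩, fun h => h.1⟩
  rw [this, ← D.P_inter _ _ hT.compl hS.compl, h, map_zero]

omit [IsProbabilityMeasure μ] [CompleteSpace X] in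
theorem off_P {S : Set Ω} (hS : MeasurableSet S) (f : X) : D.P Sᶜ (D.P S f) = 0 := by
  rw [D.P_inter _ _ hS.compl hS, Set.compl_inter_self, D.P_empty]

omit [IsProbabilityMeasure μ] [CompleteSpace X] in
theorem eq_of_off {S : Set Ω} (hS : MeasurableSet S) {f : X} (h : D.P Sᶜ f = 0) : D.P S f = f := by
  have := D.P_compl S hS f
  rwa [h, add_zero] at this

omit [IsProbabilityMeasure μ] [CompleteSpace X] in
theorem off_inter {S T : Set Ω} (hS : MeasurableSet S) (hT : MeasurableSet T) {f : X}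
    (h1 : D.P Sᶜ f = 0) (h2 : D.P Tᶜ f = 0) : D.P (S ∩ T)ᶜ f = 0 := by
  have e : D.P (S ∩ T) f = f := by
    rw [← D.P_inter S T hS hT, D.eq_of_off hT h2, D.eq_of_off hS h1]
  rw [← e]; exact D.off_P (hS.inter hT) f

/-- the subspace attached to a set -/
noncomputable def M (S : Set Ω) : Submodule ℂ (WithLp 2 (X × X)) :=
  ((D.P Sᶜ).comp (WithLp.fstL 2 ℂ X X)).ker ⊓
    ((D.P Sᶜ).comp (D.K.comp (WithLp.sndL 2 ℂ X X))).ker

omit [IsProbabilityMeasure μ] [CompleteSpace X] in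
theorem mem_M {S : Set Ω} {x : WithLp 2 (X × X)} :
    x ∈ D.M S ↔ D.P Sᶜ x.fst = 0 ∧ D.P Sᶜ (D.K x.snd) = 0 := Iff.rfl

omit [IsProbabilityMeasure μ] [CompleteSpace X] in
theorem isClosed_M (S : Set Ω) : IsClosed (D.M S : Set (WithLp 2 (X × X))) := by
  unfold M
  rw [Submodule.coe_inf]
  exact (ContinuousLinearMap.isClosed_ker _).inter (ContinuousLinearMap.isClosed_ker _)

omit [IsProbabilityMeasure μ] [CompleteSpace X] [NormedAddCommGroup X] [InnerProductSpace ℂ X] in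
theorem ext_pair {x y : WithLp 2 (X × X)} (h1 : x.fst = y.fst) (h2 : x.snd = y.snd) : x = y := by
  apply WithLp.ofLp_injective
  exact Prod.ext h1 h2

omit [IsProbabilityMeasure μ] [CompleteSpace X] in
theorem M_null {S : Set Ω} (hS : MeasurableSet S) (h0 : μ.real S = 0) : D.M S = ⊥ := by
  rw [Submodule.eq_bot_iff]
  intro x hx
  rw [mem_M] at hx
  have h1 := D.eq_of_off hS hx.1
  have h2 := D.eq_of_off hS hx.2
  rw [D.P_null hS h0] at h1 h2
  exact ext_pair h1.symm (D.K_inj _ h2.symm)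

omit [IsProbabilityMeasure μ] [CompleteSpace X] in
theorem M_empty : D.M ∅ = ⊥ := D.M_null MeasurableSet.empty (by simp)

omit [IsProbabilityMeasure μ] [CompleteSpace X] in
theorem M_univ : D.M Set.univ = ⊤ := by
  rw [Submodule.eq_top_iff']
  intro x
  rw [mem_M, Set.compl_univ]
  exact ⟨D.P_empty _, D.P_empty _⟩

omit [IsProbabilityMeasure μ] [CompleteSpace X] in
theorem M_mono {S T : Set Ω} (hS : MeasurableSet S) (hT : MeasurableSet T) (hST : S ⊆ T) :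
    D.M S ≤ D.M T := fun _ hx => ⟨D.off_mono hS hT hST hx.1, D.off_mono hS hT hST hx.2⟩

omit [IsProbabilityMeasure μ] [CompleteSpace X] in
theorem M_inter {S T : Set Ω} (hS : MeasurableSet S) (hT : MeasurableSet T) :
    D.M S ⊓ D.M T = D.M (S ∩ T) := by
  apply le_antisymm
  · rintro x ⟨h1, h2⟩
    exact ⟨D.off_inter hS hT h1.1 h2.1, D.off_inter hS hT h1.2 h2.2⟩
  · exact le_inf (D.M_mono (hS.inter hT) hS Set.inter_subset_left)
      (D.M_mono (hS.inter hT) hT Set.inter_subset_right)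

omit [IsProbabilityMeasure μ] [CompleteSpace X] in
theorem norm_pair_le (a b : X) : ‖(WithLp.toLp 2 (a, b) : WithLp 2 (X × X))‖ ≤ ‖a‖ + ‖b‖ := by
  have : (WithLp.toLp 2 (a, b) : WithLp 2 (X × X)) =
      WithLp.toLp 2 (a, 0) + WithLp.toLp 2 (0, b) := ext_pair (by simp) (by simp)
  rw [this]
  refine (norm_add_le _ _).trans ?_
  simp

omit [IsProbabilityMeasure μ] [CompleteSpace X] in
/-- the approximate splitting in the second coordinate -/
theorem split_snd {S T : Set Ω} (hS : MeasurableSet S) (hT : MeasurableSet T)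
    (hS0 : 0 < μ.real S) (hT0 : 0 < μ.real T) {h : X} (hh : D.P (S ∪ T)ᶜ (D.K h) = 0)
    {ε : ℝ} (hε : 0 < ε) :
    ∃ h₁ h₂ : X, D.P Sᶜ (D.K h₁) = 0 ∧ D.P Tᶜ (D.K h₂) = 0 ∧ ‖h - h₁ - h₂‖ ≤ ε := by
  obtain ⟨C, hC, hcS⟩ := D.K_corr S hS hS0
  obtain ⟨C', hC', hcT⟩ := D.K_corr T hT hT0
  set η := ε / (C' * (1 + ‖D.K‖ * C)) with hη
  have hpos : 0 < C' * (1 + ‖D.K‖ * C) := by positivity
  have hη0 : 0 < η := by positivity
  obtain ⟨h', hh'⟩ := D.K_dense (D.P S (D.K h)) η hη0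
  obtain ⟨u, k, hu, hk, hkn⟩ := hcS (D.P S (D.K h) - D.K h')
  obtain ⟨v, k', hv, hk', hkn'⟩ := hcT u
  refine ⟨h' + k, h - (h' + k) - k', ?_, ?_, ?_⟩
  · have : D.K (h' + k) = D.P S (D.K h) - u := by rw [map_add, hk]; abel
    rw [this, map_sub, D.off_P hS, hu, sub_zero]
  · have e1 : D.K (h - (h' + k) - k') = D.P Sᶜ (D.K h) + v := by
      rw [map_sub, map_sub, map_add, hk, hk']
      have := eq_sub_of_add_eq' (D.P_compl S hS (D.K h))
      rw [this]; abel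
    rw [e1, map_add, hv, add_zero, D.P_inter _ _ hT.compl hS.compl, ← hh]
    congr 2
    ext x; simp only [Set.mem_inter_iff, Set.mem_compl_iff, Set.mem_union]; tauto
  · have e : h - (h' + k) - (h - (h' + k) - k') = k' := by abel
    rw [e]
    have hu' : u = (D.P S (D.K h) - D.K h') - D.K k := by rw [hk]; abel
    have h1 : ‖k‖ ≤ C * η := hkn.trans (by gcongr)
    have h2 : ‖u‖ ≤ η + ‖D.K‖ * (C * η) := by
      rw [hu']
      refine (norm_sub_le _ _).trans (add_le_add hh' ?_)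
      exact (D.K.le_opNorm k).trans (by gcongr)
    calc ‖k'‖ ≤ C' * ‖u‖ := hkn'
      _ ≤ C' * (η + ‖D.K‖ * (C * η)) := by gcongr
      _ = (C' * (1 + ‖D.K‖ * C)) * η := by ring
      _ = ε := by rw [hη]; field_simp

omit [IsProbabilityMeasure μ] [CompleteSpace X] in
theorem M_congr_null {S T : Set Ω} (hS : MeasurableSet S) (hT : MeasurableSet T)
    (h0 : μ.real T = 0) : D.M (S ∪ T) ≤ D.M S := by
  have key : ∀ f, D.P (S ∪ T)ᶜ f = 0 → D.P Sᶜ f = 0 := by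
    intro f hf
    rw [D.P_split hS.compl hT, ← D.P_inter _ _ hS.compl hT, D.P_null hT h0, map_zero, zero_add,
      ← hf, Set.compl_union]
  exact fun x hx => ⟨key _ hx.1, key _ hx.2⟩

omit [IsProbabilityMeasure μ] [CompleteSpace X] in
theorem M_union {S T : Set Ω} (hS : MeasurableSet S) (hT : MeasurableSet T) :
    (D.M S ⊔ D.M T).topologicalClosure = D.M (S ∪ T) := by
  apply le_antisymm
  · refine Submodule.topologicalClosure_minimal _ (sup_le ?_ ?_) (D.isClosed_M _)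
    · exact D.M_mono hS (hS.union hT) Set.subset_union_left
    · exact D.M_mono hT (hS.union hT) Set.subset_union_right
  rcases (measureReal_nonneg (μ := μ) (s := T)).eq_or_lt with h0 | hT0
  · exact (D.M_congr_null hS hT h0.symm).trans
      (le_sup_left.trans (Submodule.le_topologicalClosure _))
  rcases (measureReal_nonneg (μ := μ) (s := S)).eq_or_lt with h0 | hS0
  · rw [Set.union_comm]
    exact (D.M_congr_null hT hS h0.symm).trans
      (le_sup_right.trans (Submodule.le_topologicalClosure _))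
  intro x hx
  rw [← SetLike.mem_coe, Submodule.topologicalClosure_coe, Metric.mem_closure_iff]
  intro ε hε
  obtain ⟨h₁, h₂, e1, e2, e3⟩ := D.split_snd hS hT hS0 hT0 hx.2 (half_pos hε)
  refine ⟨WithLp.toLp 2 (D.P S x.fst, h₁) + WithLp.toLp 2 (D.P Sᶜ x.fst, h₂), ?_, ?_⟩
  · refine Submodule.add_mem_sup ⟨D.off_P hS _, e1⟩ ⟨?_, e2⟩
    change D.P Tᶜ (D.P Sᶜ x.fst) = 0
    rw [D.P_inter _ _ hT.compl hS.compl, ← hx.1, Set.compl_union, Set.inter_comm]
    rfl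
  · rw [dist_eq_norm]
    have : x - (WithLp.toLp 2 (D.P S x.fst, h₁) + WithLp.toLp 2 (D.P Sᶜ x.fst, h₂)) =
        WithLp.toLp 2 (0, x.snd - h₁ - h₂) := by
      refine ext_pair ?_ ?_
      · simp [D.P_compl S hS]
      · simp [sub_sub]
    rw [this, WithLp.norm_toLp_snd]
    exact e3.trans_lt (half_lt_self hε)

/-- projections characterised by their defining property -/
theorem proj_dist_le {H : Type} [NormedAddCommGroup H] [InnerProductSpace ℂ H]
    {N : Submodule ℂ H} {x y w : H} (hy : y ∈ N) (hxy : x - y ∈ N.orthogonal) (hw : w ∈ N) :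
    ‖x - y‖ ≤ ‖x - w‖ := by
  have h1 : x - w = (y - w) + (x - y) := by abel
  have h2 : ⟪y - w, x - y⟫_ℂ = 0 := (Submodule.mem_orthogonal _ _).1 hxy _ (N.sub_mem hy hw)
  have h3 := norm_add_sq_eq_norm_sq_add_norm_sq_of_inner_eq_zero _ _ h2
  rw [← h1] at h3
  have : ‖x - y‖ * ‖x - y‖ ≤ ‖x - w‖ * ‖x - w‖ := by
    rw [h3]; nlinarith [norm_nonneg (y - w)]
  exact (mul_self_le_mul_self_iff (norm_nonneg _) (norm_nonneg _)).2 this

theorem exists_proj {H : Type} [NormedAddCommGroup H] [InnerProductSpace ℂ H] [CompleteSpace H]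
    {N : Submodule ℂ H} (hN : IsClosed (N : Set H)) (x : H) :
    ∃ y ∈ N, x - y ∈ N.orthogonal := by
  have : CompleteSpace N := hN.completeSpace_coe
  exact ⟨N.starProjection x, N.starProjection_apply_mem x, N.sub_starProjection_mem_orthogonal x⟩

omit [IsProbabilityMeasure μ] [CompleteSpace X] in
theorem proj_one {T : Set Ω} (hT : MeasurableSet T) :
    (WithLp.toLp 2 (D.P T D.one, 0) : WithLp 2 (X × X)) ∈ D.M T ∧
    (WithLp.toLp 2 (D.one, 0) : WithLp 2 (X × X)) - WithLp.toLp 2 (D.P T D.one, 0) ∈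
      (D.M T).orthogonal := by
  refine ⟨⟨D.off_P hT _, by simp⟩, ?_⟩
  rw [Submodule.mem_orthogonal]
  intro u hu
  rw [WithLp.prod_inner_apply]
  have e : D.one - D.P T D.one = D.P Tᶜ D.one := (eq_sub_of_add_eq' (D.P_compl T hT D.one)).symm
  have h1 : D.P Tᶜ u.fst = 0 := hu.1
  simp only [WithLp.ofLp_fst, WithLp.sub_fst, WithLp.toLp_fst, WithLp.ofLp_snd, WithLp.sub_snd,
    WithLp.toLp_snd, sub_self, inner_zero_right, add_zero, e]
  rw [← D.P_adj _ hT.compl, h1, inner_zero_left]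

omit [CompleteSpace X] in
theorem off_of_approx {S : Set Ω} (hS : MeasurableSet S) {f : X}
    (h : ∀ ε > 0, ∃ T, MeasurableSet T ∧ μ.real (T ∆ S) ≤ ε ∧ ∃ f', D.P Tᶜ f' = 0 ∧ ‖f - f'‖ ≤ ε) :
    D.P Sᶜ f = 0 := by
  rw [← norm_le_zero_iff]
  refine le_of_forall_pos_le_add fun ε hε => ?_
  obtain ⟨δ, hδ, hs⟩ := D.P_small f (ε / 2) (half_pos hε)
  obtain ⟨T, hT, hTS, f', hf', hff'⟩ := h (min δ (ε / 2)) (lt_min hδ (half_pos hε))
  rw [D.P_split hS.compl hT]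
  have h1 : ‖D.P (Sᶜ ∩ T) f‖ ≤ ε / 2 := by
    refine hs _ (hS.compl.inter hT) (le_trans (measureReal_mono ?_) (hTS.trans (min_le_left _ _)))
    rintro x ⟨h1, h2⟩
    exact Or.inl ⟨h2, h1⟩
  have h2 : ‖D.P (Sᶜ ∩ Tᶜ) f‖ ≤ ε / 2 := by
    rw [← D.P_inter _ _ hS.compl hT.compl]
    refine (D.P_le _ hS.compl _).trans ?_
    have : D.P Tᶜ f = D.P Tᶜ (f - f') := by rw [map_sub, hf', sub_zero]
    rw [this]
    exact (D.P_le _ hT.compl _).trans (hff'.trans (min_le_right _ _))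
  calc _ ≤ ‖D.P (Sᶜ ∩ T) f‖ + ‖D.P (Sᶜ ∩ Tᶜ) f‖ := norm_add_le _ _
    _ ≤ ε / 2 + ε / 2 := add_le_add h1 h2
    _ = 0 + ε := by ring

omit [IsProbabilityMeasure μ] [CompleteSpace X] in
/-- an element of `M S` is close to `M T` when `T` contains a fixed big set and most of `S` -/
theorem near_M {S A : Set Ω} (hS : MeasurableSet S) (hA : MeasurableSet A) (hA0 : 0 < μ.real A)
    {x : WithLp 2 (X × X)} (hx : x ∈ D.M S) {ε : ℝ} (hε : 0 < ε) :
    ∃ δ > 0, ∀ T, MeasurableSet T → A ⊆ T → μ.real (S ∩ Tᶜ) ≤ δ → ∃ w ∈ D.M T, ‖x - w‖ ≤ ε := by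
  obtain ⟨C, hC, hc⟩ := D.K_corr A hA hA0
  obtain ⟨δ₁, hδ₁, h1⟩ := D.P_small x.fst (ε / 2) (half_pos hε)
  obtain ⟨δ₂, hδ₂, h2⟩ := D.P_small (D.K x.snd) (ε / 2 / C) (by positivity)
  refine ⟨min δ₁ δ₂, lt_min hδ₁ hδ₂, fun T hT hAT hm => ?_⟩
  obtain ⟨u, k, hu, hk, hkn⟩ := hc (D.P Tᶜ (D.K x.snd))
  have key : ∀ f, D.P Sᶜ f = 0 → D.P Tᶜ f = D.P (S ∩ Tᶜ) f := by
    intro f hf
    rw [Set.inter_comm, ← D.P_inter _ _ hT.compl hS, D.eq_of_off hS hf]
  refine ⟨WithLp.toLp 2 (D.P T x.fst, x.snd - k), ⟨D.off_P hT _, ?_⟩, ?_⟩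
  · change D.P Tᶜ (D.K (x.snd - k)) = 0
    rw [map_sub, hk, map_sub, map_sub, D.P_inter _ _ hT.compl hT.compl, Set.inter_self,
      D.off_mono hA hT hAT hu]
    simp
  · have : x - WithLp.toLp 2 (D.P T x.fst, x.snd - k) = WithLp.toLp 2 (D.P Tᶜ x.fst, k) := by
      refine ext_pair ?_ ?_
      · simp [eq_sub_of_add_eq' (D.P_compl T hT x.fst)]
      · simp
    rw [this]
    refine (norm_pair_le _ _).trans ?_
    have a1 : ‖D.P Tᶜ x.fst‖ ≤ ε / 2 := by
      rw [key _ (D.mem_M.1 hx).1]; exact h1 _ (hS.inter hT.compl) (hm.trans (min_le_left _ _))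
    have a2 : ‖D.P Tᶜ (D.K x.snd)‖ ≤ ε / 2 / C := by
      rw [key _ (D.mem_M.1 hx).2]; exact h2 _ (hS.inter hT.compl) (hm.trans (min_le_right _ _))
    have a3 : ‖k‖ ≤ ε / 2 := by
      refine hkn.trans ?_
      calc C * ‖D.P Tᶜ (D.K x.snd)‖ ≤ C * (ε / 2 / C) := by gcongr
        _ = ε / 2 := by field_simp
    linarith

/-- the family of subspaces -/
def E : Set (Submodule ℂ (WithLp 2 (X × X))) := {N | ∃ S, MeasurableSet S ∧ N = D.M S}

theorem strongly_closed (M : Submodule ℂ (WithLp 2 (X × X)))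
    (hM : IsClosed (M : Set (WithLp 2 (X × X))))
    (h : ∀ s : Finset (WithLp 2 (X × X)), ∀ ε : ℝ, 0 < ε → ∃ N ∈ D.E, ∀ x ∈ s, ∀ y z,
        y ∈ N → x - y ∈ N.orthogonal → z ∈ M → x - z ∈ M.orthogonal → ‖y - z‖ < ε) :
    M ∈ D.E := by
  classical
  obtain ⟨z₀, hz₀, hz₀'⟩ := exists_proj hM (WithLp.toLp 2 (D.one, 0))
  obtain ⟨S, hS, hSl⟩ := D.P_lim z₀.fst
  have main : ∀ x z, z ∈ M → x - z ∈ M.orthogonal → ∀ ε > 0, ∃ T, MeasurableSet T ∧
      μ.real (T ∆ S) ≤ ε ∧ ∃ y ∈ D.M T, x - y ∈ (D.M T).orthogonal ∧ ‖y - z‖ ≤ ε := by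
    intro x z hz hz' ε hε
    obtain ⟨N, ⟨T, hT, rfl⟩, hN⟩ := h {x, WithLp.toLp 2 (D.one, 0)} (min (min ε 1) (ε / 4))
      (by positivity)
    obtain ⟨y, hy, hy'⟩ := exists_proj (D.isClosed_M T) x
    refine ⟨T, hT, ?_, y, hy, hy', ?_⟩
    · have := hN _ (by simp) _ _ (D.proj_one hT).1 (D.proj_one hT).2 hz₀ hz₀'
      have h2 : ‖D.P T D.one - z₀.fst‖ ≤ min (min ε 1) (ε / 4) :=
        le_trans (WithLp.norm_fst_le (p := 2) X (WithLp.toLp 2 (D.P T D.one, 0) - z₀)) this.le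
      have h3 : ‖D.P T D.one - z₀.fst‖ ≤ 1 := h2.trans ((min_le_left _ _).trans (min_le_right _ _))
      have h4 : ‖D.P T D.one - z₀.fst‖ ≤ ε / 4 := h2.trans (min_le_right _ _)
      refine (hSl T hT).trans ?_
      nlinarith [norm_nonneg (D.P T D.one - z₀.fst)]
    · exact (hN x (by simp) y z hy hy' hz hz').le.trans
        ((min_le_left _ _).trans (min_le_left _ _))
  refine ⟨S, hS, le_antisymm ?_ ?_⟩
  · intro x hx
    constructor
    · refine D.off_of_approx hS fun ε hε => ?_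
      obtain ⟨T, hT, h1, y, hy, -, h2⟩ := main x x hx (by simp) ε hε
      refine ⟨T, hT, h1, y.fst, hy.1, ?_⟩
      rw [norm_sub_rev] at h2
      exact le_trans (WithLp.norm_fst_le (p := 2) X (x - y)) h2
    · refine D.off_of_approx hS fun ε hε => ?_
      obtain ⟨T, hT, h1, y, hy, -, h2⟩ := main x x hx (by simp) (ε / (1 + ‖D.K‖)) (by positivity)
      have hle : ε / (1 + ‖D.K‖) ≤ ε := div_le_self hε.le (by simp)
      refine ⟨T, hT, h1.trans hle, D.K y.snd, hy.2, ?_⟩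
      rw [norm_sub_rev] at h2
      have h3 : ‖x.snd - y.snd‖ ≤ ε / (1 + ‖D.K‖) :=
        le_trans (WithLp.norm_snd_le (p := 2) X (x - y)) h2
      change ‖D.K x.snd - D.K y.snd‖ ≤ ε
      rw [← map_sub]
      calc ‖D.K (x.snd - y.snd)‖ ≤ ‖D.K‖ * ‖x.snd - y.snd‖ := D.K.le_opNorm _
        _ ≤ (1 + ‖D.K‖) * (ε / (1 + ‖D.K‖)) := by gcongr; simp
        _ = ε := by field_simp
  · rcases (measureReal_nonneg (μ := μ) (s := S)).eq_or_lt with h0 | hS0
    · rw [D.M_null hS h0.symm]; exact bot_le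
    intro x hx
    obtain ⟨z, hz, hz'⟩ := exists_proj hM x
    choose T hT hTS y hy hy' hyz using fun n : ℕ =>
      main x z hz hz' (μ.real S / 4 * (1 / 2) ^ n) (by positivity)
    set A := S ∩ ⋂ n, T n with hA
    have hAm : MeasurableSet A := hS.inter (MeasurableSet.iInter hT)
    have hsub : ∀ n, S ∩ (T n)ᶜ ⊆ T n ∆ S := fun n x hx => Or.inr ⟨hx.1, hx.2⟩
    have hA0 : 0 < μ.real A := by
      have h1 : S ⊆ A ∪ ⋃ n, (T n ∆ S) := by
        intro a ha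
        by_cases hb : ∀ n, a ∈ T n
        · exact Or.inl ⟨ha, Set.mem_iInter.2 hb⟩
        · push Not at hb
          obtain ⟨n, hn⟩ := hb
          exact Or.inr (Set.mem_iUnion.2 ⟨n, hsub n ⟨ha, hn⟩⟩)
      have hsum : HasSum (fun n : ℕ => μ.real S / 4 * (1 / 2 : ℝ) ^ n) (μ.real S / 4 * 2) :=
        hasSum_geometric_two.mul_left _
      have h2 : μ.real (⋃ n, (T n ∆ S)) ≤ μ.real S / 4 * 2 := by
        have h3 : μ (⋃ n, (T n ∆ S)) ≤ ENNReal.ofReal (μ.real S / 4 * 2) := by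
          refine (measure_iUnion_le _).trans ?_
          rw [← hsum.tsum_eq, ENNReal.ofReal_tsum_of_nonneg (fun n => by positivity) hsum.summable]
          refine ENNReal.tsum_le_tsum fun n => ?_
          rw [← ofReal_measureReal]
          exact ENNReal.ofReal_le_ofReal (hTS n)
        exact ENNReal.toReal_le_of_le_ofReal (by positivity) h3
      have h4 := (measureReal_mono h1).trans (measureReal_union_le (μ := μ) A _)
      linarith
    have : ‖x - z‖ ≤ 0 := by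
      refine le_of_forall_pos_le_add fun ε hε => ?_
      obtain ⟨δ, hδ, hn⟩ := D.near_M hS hAm hA0 hx (half_pos hε)
      have hlim : Filter.Tendsto (fun n : ℕ => μ.real S / 4 * (1 / 2 : ℝ) ^ n) Filter.atTop
          (nhds 0) := by
        simpa using (tendsto_pow_atTop_nhds_zero_of_lt_one (r := (1 / 2 : ℝ)) (by norm_num)
          (by norm_num)).const_mul (μ.real S / 4)
      obtain ⟨n, hn'⟩ := (hlim.eventually (ge_mem_nhds (lt_min hδ (half_pos hε)))).exists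
      obtain ⟨w, hw, hw'⟩ := hn (T n) (hT n) (fun a ha => Set.mem_iInter.1 ha.2 n)
        ((measureReal_mono (hsub n)).trans ((hTS n).trans (hn'.trans (min_le_left _ _))))
      have a1 : ‖x - y n‖ ≤ ε / 2 := (proj_dist_le (hy n) (hy' n) hw).trans hw'
      have a2 : ‖y n - z‖ ≤ ε / 2 := (hyz n).trans (hn'.trans (min_le_right _ _))
      calc ‖x - z‖ = ‖(x - y n) + (y n - z)‖ := by congr 1; abel
        _ ≤ ‖x - y n‖ + ‖y n - z‖ := norm_add_le _ _
        _ ≤ 0 + ε := by linarith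
    rw [norm_le_zero_iff, sub_eq_zero] at this
    rw [this]; exact hz

theorem complete (F : Set (Submodule ℂ (WithLp 2 (X × X)))) (hF : F ⊆ D.E) :
    ∃ M ∈ D.E, (∀ N ∈ F, N ≤ M) ∧ ∀ M' ∈ D.E, (∀ N ∈ F, N ≤ M') → M ≤ M' := by
  classical
  set M := (sSup F).topologicalClosure with hMdef
  have hMc : IsClosed (M : Set (WithLp 2 (X × X))) := Submodule.isClosed_topologicalClosure _
  refine ⟨M, ?_, fun N hN => (le_sSup hN).trans (Submodule.le_topologicalClosure _), ?_⟩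
  swap
  · rintro M' ⟨S, -, rfl⟩ hM'
    exact Submodule.topologicalClosure_minimal _ (sSup_le hM') (D.isClosed_M S)
  set G : Set (Submodule ℂ (WithLp 2 (X × X))) := {N | N ∈ D.E ∧ N ≤ M} with hG
  have hdir : ∀ N₁ ∈ G, ∀ N₂ ∈ G, ∃ N ∈ G, N₁ ≤ N ∧ N₂ ≤ N := by
    rintro _ ⟨⟨S, hS, rfl⟩, h1⟩ _ ⟨⟨T, hT, rfl⟩, h2⟩
    refine ⟨D.M (S ∪ T), ⟨⟨_, hS.union hT, rfl⟩, ?_⟩,
      D.M_mono hS (hS.union hT) Set.subset_union_left,
      D.M_mono hT (hS.union hT) Set.subset_union_right⟩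
    rw [← D.M_union hS hT]
    exact Submodule.topologicalClosure_minimal _ (sup_le h1 h2) hMc
  have hbot : (⊥ : Submodule ℂ (WithLp 2 (X × X))) ∈ G :=
    ⟨⟨∅, MeasurableSet.empty, D.M_empty.symm⟩, bot_le⟩
  have hFG : sSup F ≤ sSup G := sSup_le_sSup fun N hN =>
    ⟨hF hN, (le_sSup hN).trans (Submodule.le_topologicalClosure _)⟩
  refine D.strongly_closed M hMc fun s ε hε => ?_
  have one : ∀ x : WithLp 2 (X × X), ∃ N ∈ G, ∃ w ∈ N, ∀ z ∈ M, x - z ∈ M.orthogonal →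
      ‖z - w‖ < ε := by
    intro x
    obtain ⟨z, hz, hz'⟩ := exists_proj hMc x
    have hz2 := hz
    rw [← SetLike.mem_coe, hMdef, Submodule.topologicalClosure_coe, Metric.mem_closure_iff] at hz2
    obtain ⟨w, hw, hzw⟩ := hz2 ε hε
    obtain ⟨N, hN, hwN⟩ := (Submodule.mem_sSup_of_directed ⟨_, hbot⟩ hdir).1 (hFG hw)
    refine ⟨N, hN, w, hwN, fun z' h1 h2 => ?_⟩
    have : z' = z := by
      have a1 : z' - z ∈ M := M.sub_mem h1 hz
      have a2 : z' - z ∈ M.orthogonal := by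
        have := M.orthogonal.sub_mem hz' h2
        rwa [show x - z - (x - z') = z' - z by abel] at this
      have := (Submodule.mem_orthogonal _ _).1 a2 _ a1
      rwa [inner_self_eq_zero, sub_eq_zero] at this
    rw [this, ← dist_eq_norm]; exact hzw
  have all : ∃ N ∈ G, ∀ x ∈ s, ∃ w ∈ N, ∀ z ∈ M, x - z ∈ M.orthogonal → ‖z - w‖ < ε := by
    induction s using Finset.induction_on with
    | empty => exact ⟨⊥, hbot, by simp⟩
    | insert a s _ ih =>
      obtain ⟨N₁, hN₁, h1⟩ := ih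
      obtain ⟨N₂, hN₂, w, hw, h2⟩ := one a
      obtain ⟨N, hN, l1, l2⟩ := hdir N₁ hN₁ N₂ hN₂
      refine ⟨N, hN, fun x hx => ?_⟩
      rcases Finset.mem_insert.1 hx with rfl | hx
      · exact ⟨w, l2 hw, h2⟩
      · obtain ⟨w', hw', h'⟩ := h1 x hx
        exact ⟨w', l1 hw', h'⟩
  obtain ⟨N, hN, hall⟩ := all
  refine ⟨N, hN.1, fun x hx y z hy hy' hz hz' => ?_⟩
  obtain ⟨w, hw, h⟩ := hall x hx
  have a1 : z - y ∈ N.orthogonal := by
    have := N.orthogonal.sub_mem hy' (Submodule.orthogonal_le hN.2 hz')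
    rwa [show x - y - (x - z) = z - y by abel] at this
  rw [norm_sub_rev]
  exact (proj_dist_le hy a1 hw).trans_lt (h z hz hz')

omit [CompleteSpace X] in
theorem not_reflexive : ∃ M : Submodule ℂ (WithLp 2 (X × X)),
    IsClosed (M : Set (WithLp 2 (X × X))) ∧ M ∉ D.E ∧
      ∀ T : WithLp 2 (X × X) →L[ℂ] WithLp 2 (X × X),
        (∀ N ∈ D.E, ∀ x ∈ N, T x ∈ N) → ∀ x ∈ M, T x ∈ M := by
  refine ⟨(WithLp.sndL 2 ℂ X X).ker, ContinuousLinearMap.isClosed_ker _, ?_, ?_⟩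
  · rintro ⟨S, hS, h⟩
    have h1 : (WithLp.toLp 2 (D.one, 0) : WithLp 2 (X × X)) ∈ D.M S := by
      rw [← h]; rfl
    have h2 : μ.real Sᶜ = 0 := by
      have : D.P Sᶜ D.one = 0 := h1.1
      rw [← D.P_one _ hS.compl, this]; simp
    have h3 : (WithLp.toLp 2 (0, D.one) : WithLp 2 (X × X)) ∈ D.M S :=
      ⟨D.P_null hS.compl h2 _, D.P_null hS.compl h2 _⟩
    rw [← h] at h3
    have h4 : D.one = 0 := h3
    have h5 := D.P_one _ MeasurableSet.univ
    rw [h4] at h5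
    simp at h5
  · intro T hT x hx
    have hx0 : x.snd = 0 := hx
    have hsupp : ∀ S, MeasurableSet S → ∀ g,
        D.P Sᶜ (D.K (T (WithLp.toLp 2 (D.P S g, 0))).snd) = 0 := by
      intro S hS g
      exact (hT _ ⟨S, hS, rfl⟩ _ ⟨D.off_P hS g, by simp⟩).2
    change (T x).snd = 0
    refine D.K_inj _ (D.K_sing _ (‖T‖ * ‖x.fst‖) fun S hS => ?_)
    refine ⟨(T (WithLp.toLp 2 (D.P S x.fst, 0))).snd, ?_, ?_⟩
    · have e : x = WithLp.toLp 2 (D.P S x.fst, 0) + WithLp.toLp 2 (D.P Sᶜ x.fst, 0) :=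
        ext_pair (by simp [D.P_compl S hS]) (by simp [hx0])
      have h2 := hsupp Sᶜ hS.compl x.fst
      rw [compl_compl] at h2
      conv_rhs => rw [e, map_add, WithLp.add_snd, map_add, map_add, h2, add_zero]
      exact (D.eq_of_off hS (hsupp S hS _)).symm
    · refine (WithLp.norm_snd_le (p := 2) X _).trans ((T.le_opNorm _).trans ?_)
      rw [WithLp.norm_toLp_fst]
      gcongr
      exact D.P_le S hS _

omit [IsProbabilityMeasure μ] [CompleteSpace X] in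
theorem main :
    (∀ M ∈ D.E, IsClosed (M : Set (WithLp 2 (X × X)))) ∧
    (⊥ : Submodule ℂ (WithLp 2 (X × X))) ∈ D.E ∧ (⊤ : Submodule ℂ (WithLp 2 (X × X))) ∈ D.E ∧
    (∀ A ∈ D.E, ∀ B ∈ D.E, A ⊓ B ∈ D.E) ∧
    (∀ A ∈ D.E, ∀ B ∈ D.E, (A ⊔ B).topologicalClosure ∈ D.E) ∧
    (∀ A ∈ D.E, ∀ B ∈ D.E, ∀ C ∈ D.E,
      A ⊓ (B ⊔ C).topologicalClosure = ((A ⊓ B) ⊔ (A ⊓ C)).topologicalClosure) ∧
    (∀ A ∈ D.E, ∃ B ∈ D.E, A ⊓ B = ⊥ ∧ (A ⊔ B).topologicalClosure = ⊤) := by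
  refine ⟨?_, ⟨∅, MeasurableSet.empty, D.M_empty.symm⟩, ⟨_, MeasurableSet.univ, D.M_univ.symm⟩,
    ?_, ?_, ?_, ?_⟩
  · rintro _ ⟨S, -, rfl⟩; exact D.isClosed_M S
  · rintro _ ⟨S, hS, rfl⟩ _ ⟨T, hT, rfl⟩; exact ⟨_, hS.inter hT, D.M_inter hS hT⟩
  · rintro _ ⟨S, hS, rfl⟩ _ ⟨T, hT, rfl⟩; exact ⟨_, hS.union hT, D.M_union hS hT⟩
  · rintro _ ⟨S, hS, rfl⟩ _ ⟨T, hT, rfl⟩ _ ⟨U, hU, rfl⟩
    rw [D.M_union hT hU, D.M_inter hS (hT.union hU), D.M_inter hS hT, D.M_inter hS hU,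
      D.M_union (hS.inter hT) (hS.inter hU), Set.inter_union_distrib_left]
  · rintro _ ⟨S, hS, rfl⟩
    refine ⟨_, ⟨Sᶜ, hS.compl, rfl⟩, ?_, ?_⟩
    · rw [D.M_inter hS hS.compl, Set.inter_compl_self, D.M_empty]
    · rw [D.M_union hS hS.compl, Set.union_compl_self, D.M_univ]

end Setup

end Pool.Agent.P.MP_c2be6c_an
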