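import Mathlib

/-! Multiplication by indicator functions on `L²`, and diagonal operators for a Hilbert basis. -/

open MeasureTheory
open scoped InnerProductSpace symmDiff ENNReal

namespace Pool.Agent.P.MP_c2be6c_an

section Ind

variable {Ω : Type} [MeasurableSpace Ω] (μ : Measure Ω)

noncomputable def indLin (S : Set Ω) (hS : MeasurableSet S) : Lp ℂ 2 μ →ₗ[ℂ] Lp ℂ 2 μ where
  toFun f := ((Lp.memLp f).indicator hS).toLp _
  map_add' f g := by
    rw [← MemLp.toLp_add]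
    refine MemLp.toLp_congr _ _ ?_
    filter_upwards [Lp.coeFn_add f g] with x hx
    by_cases h : x ∈ S
    · rw [Set.indicator_of_mem h, hx, Pi.add_apply, Pi.add_apply, Set.indicator_of_mem h,
        Set.indicator_of_mem h]
    · simp [h]
  map_smul' c f := by
    rw [RingHom.id_apply, ← MemLp.toLp_const_smul]
    refine MemLp.toLp_congr _ _ ?_
    filter_upwards [Lp.coeFn_smul c f] with x hx
    by_cases h : x ∈ S <;> simp [h, hx]

theorem indLin_coe (S : Set Ω) (hS : MeasurableSet S) (f : Lp ℂ 2 μ) :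
    indLin μ S hS f =ᵐ[μ] S.indicator f := by
  have : indLin μ S hS f = ((Lp.memLp f).indicator hS).toLp (S.indicator f) := rfl
  rw [this]
  exact MemLp.coeFn_toLp _

theorem indLin_le (S : Set Ω) (hS : MeasurableSet S) (f : Lp ℂ 2 μ) :
    ‖indLin μ S hS f‖ ≤ ‖f‖ := by
  refine Lp.norm_le_norm_of_ae_le ?_
  filter_upwards [indLin_coe μ S hS f] with x hx
  rw [hx]; exact norm_indicator_le_norm_self _ _

open Classical in
noncomputable def ind (S : Set Ω) : Lp ℂ 2 μ →L[ℂ] Lp ℂ 2 μ :=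
  if hS : MeasurableSet S then
    (indLin μ S hS).mkContinuous 1 (fun f => by simpa using indLin_le μ S hS f)
  else 0

variable {μ}

theorem ind_coe {S : Set Ω} (hS : MeasurableSet S) (f : Lp ℂ 2 μ) :
    ind μ S f =ᵐ[μ] S.indicator f := by
  rw [ind, dif_pos hS]; exact indLin_coe μ S hS f

theorem ind_le {S : Set Ω} (hS : MeasurableSet S) (f : Lp ℂ 2 μ) : ‖ind μ S f‖ ≤ ‖f‖ := by
  rw [ind, dif_pos hS]; exact indLin_le μ S hS f

theorem ind_inter {S T : Set Ω} (hS : MeasurableSet S) (hT : MeasurableSet T) (f : Lp ℂ 2 μ) :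
    ind μ S (ind μ T f) = ind μ (S ∩ T) f := by
  ext1
  filter_upwards [ind_coe hS (ind μ T f), ind_coe hT f, ind_coe (hS.inter hT) f] with x h1 h2 h3
  rw [h1, h3]
  by_cases h : x ∈ S
  · rw [Set.indicator_of_mem h, h2]
    by_cases h' : x ∈ T <;> simp [h, h']
  · simp [h]

theorem ind_compl {S : Set Ω} (hS : MeasurableSet S) (f : Lp ℂ 2 μ) :
    ind μ S f + ind μ Sᶜ f = f := by
  ext1
  filter_upwards [ind_coe hS f, ind_coe hS.compl f, Lp.coeFn_add (ind μ S f) (ind μ Sᶜ f)]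
    with x h1 h2 h3
  rw [h3, Pi.add_apply, h1, h2]
  by_cases h : x ∈ S <;> simp [h]

theorem inner_ind_right {S : Set Ω} (hS : MeasurableSet S) (f g : Lp ℂ 2 μ) :
    ⟪f, ind μ S g⟫_ℂ = ∫ x in S, ⟪f x, g x⟫_ℂ ∂μ := by
  rw [L2.inner_def, ← integral_indicator hS]
  refine integral_congr_ae ?_
  filter_upwards [ind_coe hS g] with x h1
  rw [h1]
  by_cases h : x ∈ S <;> simp [h]

theorem ind_adj {S : Set Ω} (hS : MeasurableSet S) (f g : Lp ℂ 2 μ) :
    ⟪ind μ S f, g⟫_ℂ = ⟪f, ind μ S g⟫_ℂ := by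
  rw [L2.inner_def, L2.inner_def]
  refine integral_congr_ae ?_
  filter_upwards [ind_coe hS g, ind_coe hS f] with x h1 h2
  rw [h1, h2]
  by_cases h : x ∈ S <;> simp [h]

theorem ind_small (f : Lp ℂ 2 μ) (ε : ℝ) (hε : 0 < ε) [IsFiniteMeasure μ] :
    ∃ δ > 0, ∀ S, MeasurableSet S → μ.real S ≤ δ → ‖ind μ S f‖ ≤ ε := by
  obtain ⟨δ, hδ, h⟩ := (Lp.memLp f).eLpNorm_indicator_le (by norm_num) (by norm_num) hε
  refine ⟨δ, hδ, fun S hS hm => ?_⟩
  rw [Lp.norm_def, eLpNorm_congr_ae (ind_coe hS f)]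
  refine ENNReal.toReal_le_of_le_ofReal hε.le (h S hS ?_)
  rw [← ofReal_measureReal]
  exact ENNReal.ofReal_le_ofReal hm

theorem ind_one [IsFiniteMeasure μ] {one : Lp ℂ 2 μ} (h1 : one =ᵐ[μ] fun _ => 1) {S : Set Ω}
    (hS : MeasurableSet S) : ‖ind μ S one‖ ^ 2 = μ.real S := by
  have : ind μ S one = indicatorConstLp 2 hS (measure_ne_top μ S) (1 : ℂ) := by
    ext1
    filter_upwards [ind_coe hS one, h1,
      indicatorConstLp_coeFn (p := 2) (hs := hS) (hμs := measure_ne_top μ S) (c := (1 : ℂ))]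
      with x a b c
    rw [a, c]
    by_cases h : x ∈ S <;> simp [h, b]
  rw [this, norm_indicatorConstLp (by norm_num) (by norm_num)]
  simp only [norm_one, ENNReal.toReal_ofNat, one_mul]
  rw [← Real.rpow_natCast, ← Real.rpow_mul measureReal_nonneg]
  norm_num

theorem ind_lim [IsFiniteMeasure μ] {one : Lp ℂ 2 μ} (h1 : one =ᵐ[μ] fun _ => 1) (g : Lp ℂ 2 μ) :
    ∃ S, MeasurableSet S ∧ ∀ T, MeasurableSet T →
      μ.real (T ∆ S) ≤ 4 * ‖ind μ T one - g‖ ^ 2 := by
  have hm : MeasurableSet {x | 1 / 2 < (g x).re} :=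
    measurableSet_lt measurable_const
      (Complex.measurable_re.comp (Lp.stronglyMeasurable g).measurable)
  refine ⟨_, hm, fun T hT => ?_⟩
  have hD : MeasurableSet (T ∆ {x | 1 / 2 < (g x).re}) := hT.symmDiff hm
  rw [← ind_one h1 hD]
  have : ‖ind μ (T ∆ {x | 1 / 2 < (g x).re}) one‖ ≤ ‖(2 : ℂ) • (ind μ T one - g)‖ := by
    refine Lp.norm_le_norm_of_ae_le ?_
    filter_upwards [ind_coe hD one, ind_coe hT one, h1, Lp.coeFn_smul (2 : ℂ) (ind μ T one - g),
      Lp.coeFn_sub (ind μ T one) g] with x a b c d e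
    rw [a, d, Pi.smul_apply, e, Pi.sub_apply, b, norm_smul]
    by_cases hx : x ∈ T ∆ {x | 1 / 2 < (g x).re}
    · rw [Set.indicator_of_mem hx, c]
      have hre := Complex.abs_re_le_norm (T.indicator one x - g x)
      rcases hx with ⟨h2, h3⟩ | ⟨h2, h3⟩
      · rw [Set.indicator_of_mem h2, c] at hre ⊢
        simp only [Set.mem_ofPred_eq, not_lt] at h3
        have := le_abs_self ((1 : ℂ) - g x).re
        simp only [Complex.sub_re, Complex.one_re, norm_one, Complex.norm_ofNat] at this hre ⊢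
        linarith
      · rw [Set.indicator_of_notMem h3] at hre ⊢
        simp only [Set.mem_ofPred_eq] at h2
        have := neg_le_abs ((0 : ℂ) - g x).re
        simp only [Complex.sub_re, Complex.zero_re, norm_one, Complex.norm_ofNat] at this hre ⊢
        linarith
    · rw [Set.indicator_of_notMem hx, norm_zero]; positivity
  rw [norm_smul, Complex.norm_ofNat] at this
  nlinarith [norm_nonneg (ind μ (T ∆ {x | 1 / 2 < (g x).re}) one), norm_nonneg (ind μ T one - g)]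

/-- the total variation is controlled by the set integrals -/
theorem integral_norm_le_of_setIntegral {F : Ω → ℂ} (hF : Integrable F μ) (hm : Measurable F)
    {c : ℝ} (h : ∀ S, MeasurableSet S → ‖∫ x in S, F x ∂μ‖ ≤ c) : ∫ x, ‖F x‖ ∂μ ≤ 4 * c := by
  have key : ∀ L : ℂ →L[ℝ] ℝ, (∀ z, |L z| ≤ ‖z‖) → ∫ x, ‖L (F x)‖ ∂μ ≤ 2 * c := by
    intro L hL
    have hi : Integrable (fun x => L (F x)) μ := L.integrable_comp hF
    have hLm : Measurable fun x => L (F x) := L.continuous.measurable.comp hm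
    rw [integral_norm_eq_pos_sub_neg hi]
    have a : ∀ S, MeasurableSet S → |∫ x in S, L (F x) ∂μ| ≤ c := by
      intro S hS
      rw [L.integral_comp_comm hF.integrableOn]
      exact (hL _).trans (h S hS)
    have a1 := abs_le.1 (a _ (measurableSet_le measurable_const hLm (f := fun _ => 0)))
    have a2 := abs_le.1 (a _ (measurableSet_le hLm measurable_const (g := fun _ => 0)))
    linarith [a1.2, a2.1]
  have h1 := key Complex.reCLM (fun z => Complex.abs_re_le_norm z)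
  have h2 := key Complex.imCLM (fun z => Complex.abs_im_le_norm z)
  have i1 : Integrable (fun x => ‖Complex.reCLM (F x)‖) μ := (Complex.reCLM.integrable_comp hF).norm
  have i2 : Integrable (fun x => ‖Complex.imCLM (F x)‖) μ := (Complex.imCLM.integrable_comp hF).norm
  calc ∫ x, ‖F x‖ ∂μ ≤ ∫ x, (‖Complex.reCLM (F x)‖ + ‖Complex.imCLM (F x)‖) ∂μ := by
        refine integral_mono hF.norm (i1.add i2) fun x => ?_
        exact Complex.norm_le_abs_re_add_abs_im _
    _ ≤ 4 * c := by rw [integral_add i1 i2]; linarith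

end Ind

section Diag

variable {ι : Type} {X : Type} [NormedAddCommGroup X] [InnerProductSpace ℂ X]

theorem memlp_mul (w : ι → ℂ) (C : ℝ) (hw : ∀ k, ‖w k‖ ≤ C) (c : lp (fun _ : ι => ℂ) 2) :
    Memℓp (fun k => w k * c k) 2 := by
  refine Memℓp.mono' (g := (C : ℂ) • (c : ι → ℂ)) ((lp.memℓp c).const_smul (C : ℂ)) fun k => ?_
  rw [norm_mul, Pi.smul_apply, norm_smul, Complex.norm_real]
  gcongr
  exact (hw k).trans (Real.le_norm_self _)

noncomputable def mulLin (w : ι → ℂ) (C : ℝ) (hw : ∀ k, ‖w k‖ ≤ C) :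
    lp (fun _ : ι => ℂ) 2 →ₗ[ℂ] lp (fun _ : ι => ℂ) 2 where
  toFun c := ⟨fun k => w k * c k, memlp_mul w C hw c⟩
  map_add' a b := by
    ext k
    change w k * (a k + b k) = w k * a k + w k * b k
    ring
  map_smul' a b := by
    ext k
    change w k * (a * b k) = a * (w k * b k)
    ring

theorem mulLin_le (w : ι → ℂ) (C : ℝ) (hC : 0 ≤ C) (hw : ∀ k, ‖w k‖ ≤ C)
    (c : lp (fun _ : ι => ℂ) 2) : ‖mulLin w C hw c‖ ≤ C * ‖c‖ := by
  have : ‖mulLin w C hw c‖ ≤ ‖(C : ℂ) • c‖ := by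
    refine lp.norm_mono (by norm_num) fun k => ?_
    change ‖w k * c k‖ ≤ ‖(C : ℂ) * c k‖
    rw [norm_mul, norm_mul, Complex.norm_real]
    gcongr
    exact (hw k).trans (Real.le_norm_self _)
  rwa [norm_smul, Complex.norm_real, Real.norm_of_nonneg hC] at this

theorem exists_diag (b : HilbertBasis ι ℂ X) (w : ι → ℂ) (C : ℝ) (hC : 0 ≤ C)
    (hw : ∀ k, ‖w k‖ ≤ C) : ∃ T : X →L[ℂ] X, (∀ f k, ⟪b k, T f⟫_ℂ = w k * ⟪b k, f⟫_ℂ) ∧
      ∀ f, ‖T f‖ ≤ C * ‖f‖ := by
  refine ⟨(b.repr.symm.toContinuousLinearEquiv : lp (fun _ : ι => ℂ) 2 →L[ℂ] X).comp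
    (((mulLin w C hw).mkContinuous C (mulLin_le w C hC hw)).comp
      (b.repr.toContinuousLinearEquiv : X →L[ℂ] lp (fun _ : ι => ℂ) 2)), fun f k => ?_, fun f => ?_⟩
  · rw [← b.repr_apply_apply, ← b.repr_apply_apply]
    simp
    rfl
  · simpa using mulLin_le w C hC hw (b.repr f)

theorem basis_ext (b : HilbertBasis ι ℂ X) {f g : X} (h : ∀ k, ⟪b k, f⟫_ℂ = ⟪b k, g⟫_ℂ) :
    f = g := by
  apply b.repr.injective
  ext k
  rw [b.repr_apply_apply, b.repr_apply_apply, h]

end Diag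

end Pool.Agent.P.MP_c2be6c_an
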