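import Mathlib
import Pool.Agent.P.MP_c2be6c_an.Ind
import Pool.Agent.P.MP_c2be6c_an.Abstract

/-! The lacunary system `exp (2 π i 2^n x)` is a Riesz sequence on every set of positive measure
after finitely many terms are dropped; construction of the `Setup`. -/

open MeasureTheory AddCircle
open scoped InnerProductSpace symmDiff ENNReal ComplexConjugate

namespace Pool.Agent.P.MP_c2be6c_an

theorem two_mul_pow_le {i j : ℕ} (h : i < j) : 2 * (2 : ℤ) ^ i ≤ 2 ^ j := by
  rw [← pow_succ']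
  exact pow_le_pow_right₀ (by norm_num) h

theorem pow_sub_inj_aux {a b c d : ℕ} (hab : b < a) (h : (2 : ℤ) ^ a - 2 ^ b = 2 ^ c - 2 ^ d) :
    a = c ∧ b = d := by
  have pos : ∀ n : ℕ, 0 < (2 : ℤ) ^ n := fun n => by positivity
  have h1 := two_mul_pow_le hab
  have hcd : d < c := by
    by_contra hh
    have : (2 : ℤ) ^ c ≤ 2 ^ d := pow_le_pow_right₀ (by norm_num) (not_lt.1 hh)
    linarith [pos b]
  have h2 := two_mul_pow_le hcd
  have hac : a = c := by
    rcases lt_trichotomy a c with h3 | h3 | h3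
    · have := two_mul_pow_le h3
      linarith [pos b]
    · exact h3
    · have := two_mul_pow_le h3
      linarith [pos d]
  subst hac
  refine ⟨rfl, ?_⟩
  have : (2 : ℤ) ^ b = 2 ^ d := by linarith
  exact pow_right_injective₀ (by norm_num) (by norm_num) this

theorem pow_sub_inj {a b c d : ℕ} (hab : a ≠ b) (h : (2 : ℤ) ^ a - 2 ^ b = 2 ^ c - 2 ^ d) :
    a = c ∧ b = d := by
  rcases lt_or_gt_of_ne hab with h1 | h1
  · have := pow_sub_inj_aux (c := d) (d := c) h1 (by linarith)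
    exact ⟨this.2, this.1⟩
  · exact pow_sub_inj_aux h1 h

theorem pow_sub_large {a b N : ℕ} (hab : a ≠ b) :
    (2 : ℤ) ^ N ≤ |(2 : ℤ) ^ (a + N) - 2 ^ (b + N)| := by
  rw [pow_add, pow_add, ← sub_mul, abs_mul, abs_of_pos (by positivity : (0 : ℤ) < 2 ^ N)]
  have : (2 : ℤ) ^ a - 2 ^ b ≠ 0 := by
    rw [sub_ne_zero]
    exact fun h => hab (pow_right_injective₀ (by norm_num) (by norm_num) h)
  have h1 : 1 ≤ |(2 : ℤ) ^ a - 2 ^ b| := Int.one_le_abs this
  have h2 : (0 : ℤ) < 2 ^ N := by positivity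
  nlinarith

/-- Haar measure on the circle -/
noncomputable abbrev haar : Measure (AddCircle (1 : ℝ)) := haarAddCircle

/-- the characters -/
noncomputable def ch (k : ℤ) : Lp ℂ 2 haar := fourierLp 2 k

theorem ch_coe (k : ℤ) : ch k =ᵐ[haar] fourier k := coeFn_fourierLp 2 k

theorem ch_orth : Orthonormal ℂ ch := orthonormal_fourier

theorem ch_zero : ch 0 =ᵐ[haar] fun _ => 1 := by
  filter_upwards [ch_coe 0] with x hx
  rw [hx, fourier_zero]

theorem inner_ch_ind {A : Set (AddCircle (1 : ℝ))} (hA : MeasurableSet A) (j k : ℤ) :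
    ⟪ch j, ind haar A (ch k)⟫_ℂ = ⟪ch (j - k), ind haar A (ch 0)⟫_ℂ := by
  rw [inner_ind_right hA, inner_ind_right hA]
  refine integral_congr_ae (ae_restrict_of_ae ?_)
  filter_upwards [ch_coe j, ch_coe k, ch_coe (j - k), ch_coe 0] with x h1 h2 h3 h4
  rw [h1, h2, h3, h4, RCLike.inner_apply, RCLike.inner_apply, ← fourier_neg, ← fourier_neg,
    ← fourier_add, ← fourier_add]
  congr 2
  ring

theorem inner_ind_self {A : Set (AddCircle (1 : ℝ))} (hA : MeasurableSet A) (y : Lp ℂ 2 haar) :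
    ⟪y, ind haar A y⟫_ℂ = ((‖ind haar A y‖ ^ 2 : ℝ) : ℂ) := by
  have : ind haar A y = ind haar A (ind haar A y) := by rw [ind_inter hA hA, Set.inter_self]
  conv_lhs => rw [this, ← ind_adj hA]
  rw [inner_self_eq_norm_sq_to_K]
  push_cast
  rfl

theorem lacunary {A : Set (AddCircle (1 : ℝ))} (hA : MeasurableSet A) (hA0 : 0 < haar.real A) :
    ∃ N : ℕ, ∀ (s : Finset ℕ) (c : ℕ → ℂ),
      haar.real A / 2 * ‖∑ n ∈ s, c n • ch (2 ^ (n + N))‖ ^ 2 ≤
        ‖ind haar A (∑ n ∈ s, c n • ch (2 ^ (n + N)))‖ ^ 2 := by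
  classical
  set α := haar.real A with hα
  set γ : ℤ → ℂ := fun k => ⟪ch k, ind haar A (ch 0)⟫_ℂ with hγ
  have hsum : Summable fun k => ‖γ k‖ ^ 2 := ch_orth.inner_products_summable _
  obtain ⟨s₀, hs₀⟩ := hsum.vanishing (e := Set.Iio ((α / 2) ^ 2)) (Iio_mem_nhds (by positivity))
  obtain ⟨N, hN⟩ : ∃ N : ℕ, ∀ k ∈ s₀, |k| < 2 ^ N := by
    obtain ⟨M, hM⟩ := (s₀.image fun k => |k|).bddAbove
    obtain ⟨N, hN⟩ := pow_unbounded_of_one_lt M (by norm_num : (1 : ℤ) < 2)
    exact ⟨N, fun k hk => (hM (by simpa using ⟨k, hk, rfl⟩)).trans_lt hN⟩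
  refine ⟨N, fun s c => ?_⟩
  set y := ∑ n ∈ s, c n • ch (2 ^ (n + N)) with hy
  set φ : ℕ × ℕ → ℤ := fun p => 2 ^ (p.1 + N) - 2 ^ (p.2 + N) with hφ
  have hγ0 : γ 0 = (α : ℂ) := by
    simp only [hγ]
    rw [inner_ind_self hA, ind_one ch_zero hA]
  have horth : Orthonormal ℂ fun n : ℕ => ch (2 ^ (n + N)) :=
    ch_orth.comp (fun n : ℕ => (2 : ℤ) ^ (n + N)) fun a b h => by
      have := pow_right_injective₀ (by norm_num) (by norm_num) h
      omega
  have hnorm : ‖y‖ ^ 2 = ∑ n ∈ s, ‖c n‖ ^ 2 := by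
    have h1 := horth.inner_sum c c s
    rw [← hy, inner_self_eq_norm_sq_to_K] at h1
    simp only [RCLike.conj_mul] at h1
    exact_mod_cast h1
  have hexp : ⟪y, ind haar A y⟫_ℂ = ∑ p ∈ s ×ˢ s, conj (c p.1) * c p.2 * γ (φ p) := by
    rw [Finset.sum_product, hy, map_sum, sum_inner]
    refine Finset.sum_congr rfl fun n _ => ?_
    rw [inner_sum]
    refine Finset.sum_congr rfl fun m _ => ?_
    rw [map_smul, inner_smul_left, inner_smul_right, inner_ch_ind hA, mul_assoc]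
  rw [← Finset.diag_union_offDiag, Finset.sum_union (Finset.disjoint_diag_offDiag s),
    Finset.sum_diag, inner_ind_self hA] at hexp
  have hdiag : ∑ n ∈ s, conj (c n) * c n * γ (φ (n, n)) = ((α * ‖y‖ ^ 2 : ℝ) : ℂ) := by
    rw [hnorm, Finset.mul_sum]
    push_cast
    refine Finset.sum_congr rfl fun n _ => ?_
    simp only [hφ, sub_self, hγ0]
    rw [Complex.conj_mul']
    ring
  have hoff : ‖∑ p ∈ s.offDiag, conj (c p.1) * c p.2 * γ (φ p)‖ ≤ α / 2 * ‖y‖ ^ 2 := by
    have h1 : ‖∑ p ∈ s.offDiag, conj (c p.1) * c p.2 * γ (φ p)‖ ≤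
        ∑ p ∈ s.offDiag, (‖c p.1‖ * ‖c p.2‖) * ‖γ (φ p)‖ := by
      refine (norm_sum_le _ _).trans (le_of_eq (Finset.sum_congr rfl fun p _ => ?_))
      rw [norm_mul, norm_mul, Complex.norm_conj]
    have h2 := Finset.sum_mul_sq_le_sq_mul_sq s.offDiag (fun p => ‖c p.1‖ * ‖c p.2‖)
      (fun p => ‖γ (φ p)‖)
    have h3 : ∑ p ∈ s.offDiag, (‖c p.1‖ * ‖c p.2‖) ^ 2 ≤ (‖y‖ ^ 2) ^ 2 := by
      rw [hnorm, sq (∑ n ∈ s, ‖c n‖ ^ 2), Finset.sum_mul_sum, ← Finset.sum_product']
      refine le_trans (le_of_eq (Finset.sum_congr rfl fun p _ => mul_pow _ _ _)) ?_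
      refine Finset.sum_le_sum_of_subset_of_nonneg ?_ fun _ _ _ => by positivity
      intro p hp
      rw [Finset.mem_offDiag] at hp
      exact Finset.mem_product.2 ⟨hp.1, hp.2.1⟩
    have h4 : ∑ p ∈ s.offDiag, ‖γ (φ p)‖ ^ 2 ≤ (α / 2) ^ 2 := by
      have hinj : Set.InjOn φ s.offDiag := by
        intro p hp q _ hpq
        rw [Finset.mem_coe, Finset.mem_offDiag] at hp
        have := pow_sub_inj (by have := hp.2.2; omega) hpq
        exact Prod.ext (by omega) (by omega)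
      rw [← Finset.sum_image (f := fun k => ‖γ k‖ ^ 2) hinj]
      refine le_of_lt (hs₀ _ ?_)
      rw [Finset.disjoint_left]
      intro k hk hk'
      obtain ⟨p, hp, rfl⟩ := Finset.mem_image.1 hk
      rw [Finset.mem_offDiag] at hp
      exact absurd (hN _ hk') (not_lt.2 (pow_sub_large hp.2.2))
    refine h1.trans (abs_le_of_sq_le_sq' ?_ (by positivity)).2
    refine h2.trans ?_
    rw [mul_pow, mul_comm ((α / 2) ^ 2)]
    gcongr
  rw [hdiag] at hexp
  have h5 : ((‖ind haar A y‖ ^ 2 - α * ‖y‖ ^ 2 : ℝ) : ℂ) =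
      ∑ p ∈ s.offDiag, conj (c p.1) * c p.2 * γ (φ p) := by
    rw [Complex.ofReal_sub, hexp]; ring
  rw [← h5, Complex.norm_real, Real.norm_eq_abs] at hoff
  have := (abs_le.1 hoff).1
  linarith

theorem solve_bij {Y : Type} [NormedAddCommGroup Y] [InnerProductSpace ℂ Y] [CompleteSpace Y]
    (T : Y →L[ℂ] Y) {κ : ℝ} (hκ : 0 < κ) (h : ∀ y, κ * ‖y‖ ^ 2 ≤ ‖⟪y, T y⟫_ℂ‖) (z : Y) :
    ∃ y, T y = z ∧ κ * ‖y‖ ≤ ‖z‖ := by
  have hu : IsUnit T := ContinuousLinearMap.isUnit_of_forall_le_norm_inner_map T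
    (c := ⟨κ, hκ.le⟩) (by change (0 : ℝ) < κ; exact hκ) (fun y => by
      rw [norm_inner_symm, mul_comm]; exact h y)
  obtain ⟨y, rfl⟩ := (ContinuousLinearMap.isUnit_iff_bijective.1 hu).2 z
  refine ⟨y, rfl, ?_⟩
  have h1 := (h y).trans (norm_inner_le_norm _ _)
  rcases (norm_nonneg y).eq_or_lt with h0 | h0
  · rw [← h0, mul_zero]; positivity
  · refine le_of_mul_le_mul_left ?_ h0
    calc ‖y‖ * (κ * ‖y‖) = κ * ‖y‖ ^ 2 := by ring
      _ ≤ _ := h1

theorem solve_coercive {X : Type} [NormedAddCommGroup X] [InnerProductSpace ℂ X] [CompleteSpace X]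
    (Y : Submodule ℂ X) (hY : IsClosed (Y : Set X)) (P : X →L[ℂ] X) {κ : ℝ} (hκ : 0 < κ)
    (h : ∀ y ∈ Y, κ * ‖y‖ ^ 2 ≤ ‖⟪y, P y⟫_ℂ‖) (f : X) :
    ∃ y ∈ Y, f - P y ∈ Y.orthogonal ∧ κ * ‖y‖ ≤ ‖f‖ := by
  have : CompleteSpace Y := hY.completeSpace_coe
  obtain ⟨y, hy, hn⟩ := solve_bij (Y.orthogonalProjectionOnto.comp (P.comp Y.subtypeL)) hκ
    (fun y => (h y y.2).trans_eq (congrArg norm
      (Submodule.inner_orthogonalProjectionOnto_eq_of_mem_left y (P y)).symm))
    (Y.orthogonalProjectionOnto f)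
  refine ⟨y, y.2, ?_, hn.trans (Y.norm_orthogonalProjectionOnto_apply_le f)⟩
  rw [← Submodule.orthogonalProjectionOnto_eq_zero_iff, map_sub, ← hy]
  exact sub_self _

/-- correction of the lacunary coefficients by a function supported in `A` -/
theorem correct {A : Set (AddCircle (1 : ℝ))} (hA : MeasurableSet A) (hA0 : 0 < haar.real A) :
    ∃ N : ℕ, ∃ C > 0, ∀ f : Lp ℂ 2 haar, ∃ u, ind haar Aᶜ u = 0 ∧ ‖u‖ ≤ C * ‖f‖ ∧
      ∀ n, ⟪ch (2 ^ (n + N)), f - u⟫_ℂ = 0 := by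
  obtain ⟨N, hN⟩ := lacunary hA hA0
  set α := haar.real A with hα
  set Y : Submodule ℂ (Lp ℂ 2 haar) :=
    (Submodule.span ℂ (Set.range fun n : ℕ => ch (2 ^ (n + N)))).topologicalClosure with hY
  have hYc : IsClosed (Y : Set (Lp ℂ 2 haar)) := Submodule.isClosed_topologicalClosure _
  have hlow : ∀ y ∈ Y, α / 2 * ‖y‖ ^ 2 ≤ ‖ind haar A y‖ ^ 2 := by
    have hcl : IsClosed {y : Lp ℂ 2 haar | α / 2 * ‖y‖ ^ 2 ≤ ‖ind haar A y‖ ^ 2} :=
      isClosed_le (by fun_prop) (by fun_prop)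
    intro y hy
    rw [← SetLike.mem_coe, hY, Submodule.topologicalClosure_coe] at hy
    refine closure_minimal (fun z hz => ?_) hcl hy
    obtain ⟨c, rfl⟩ := Finsupp.mem_span_range_iff_exists_finsupp.1 hz
    exact hN c.support c
  refine ⟨N, 2 / α, by positivity, fun f => ?_⟩
  obtain ⟨y, -, h1, h2⟩ := solve_coercive Y hYc (ind haar A) (half_pos hA0) (fun y hy => by
    rw [inner_ind_self hA, Complex.norm_real, Real.norm_of_nonneg (by positivity)]
    exact hlow y hy) f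
  refine ⟨ind haar A y, ?_, ?_, fun n => ?_⟩
  · have h0 := ind_compl hA (ind haar A y)
    rw [ind_inter hA hA, Set.inter_self] at h0
    simpa using h0
  · refine (ind_le hA _).trans ?_
    rw [div_mul_eq_mul_div, le_div_iff₀ hA0]
    linarith
  · exact (Submodule.mem_orthogonal _ _).1 h1 _
      (Submodule.le_topologicalClosure _ (Submodule.subset_span ⟨n, rfl⟩))

open Classical in
/-- the weights -/
noncomputable def wt (k : ℤ) : ℂ := if ∃ n : ℕ, k = 2 ^ n then (k : ℂ)⁻¹ else 1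

theorem wt_pow (n : ℕ) : wt (2 ^ n) = ((2 : ℂ) ^ n)⁻¹ := by
  rw [wt, if_pos ⟨n, rfl⟩]; push_cast; rfl

theorem wt_le (k : ℤ) : ‖wt k‖ ≤ 1 := by
  by_cases h : ∃ n : ℕ, k = 2 ^ n
  · obtain ⟨n, rfl⟩ := h
    rw [wt_pow, norm_inv, norm_pow, Complex.norm_ofNat]
    exact inv_le_one_of_one_le₀ (one_le_pow₀ (by norm_num))
  · rw [wt, if_neg h, norm_one]

theorem wt_ne (k : ℤ) : wt k ≠ 0 := by
  by_cases h : ∃ n : ℕ, k = 2 ^ n
  · obtain ⟨n, rfl⟩ := h
    rw [wt_pow]; exact inv_ne_zero (pow_ne_zero _ two_ne_zero)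
  · rw [wt, if_neg h]; exact one_ne_zero

theorem basis_eq (k : ℤ) : fourierBasis (T := 1) k = ch k := by
  rw [coe_fourierBasis]; rfl

theorem exists_setup : Nonempty (Setup (AddCircle (1 : ℝ)) haar (Lp ℂ 2 haar)) := by
  classical
  obtain ⟨K, hK, -⟩ := exists_diag (fourierBasis (T := 1)) wt 1 zero_le_one wt_le
  simp only [basis_eq] at hK
  have hext : ∀ f g : Lp ℂ 2 haar, (∀ k, ⟪ch k, f⟫_ℂ = ⟪ch k, g⟫_ℂ) → f = g := fun f g h =>
    basis_ext (fourierBasis (T := 1)) (by simpa only [basis_eq] using h)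
  refine ⟨{
    P := ind haar
    K := K
    one := ch 0
    P_inter := fun S T hS hT f => ind_inter hS hT f
    P_compl := fun S hS f => ind_compl hS f
    P_adj := fun S hS f g => ind_adj hS f g
    P_le := fun S hS f => ind_le hS f
    P_small := fun f ε hε => ind_small f ε hε
    P_one := fun S hS => ind_one ch_zero hS
    P_lim := fun g => ind_lim ch_zero g
    K_inj := ?_
    K_corr := ?_
    K_dense := ?_
    K_sing := ?_ }⟩
  · intro h h0
    refine hext _ _ fun k => ?_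
    have := hK h k
    rw [h0, inner_zero_right] at this
    rw [inner_zero_right]
    exact (mul_eq_zero.1 this.symm).resolve_left (wt_ne k)
  · intro A hA hA0
    obtain ⟨N, C, hC, h⟩ := correct hA hA0
    set w' : ℤ → ℂ := fun k => if ∃ n : ℕ, k = 2 ^ (n + N) then 0 else (wt k)⁻¹ with hw'
    have hb : ∀ k, ‖w' k‖ ≤ 2 ^ N := by
      intro k
      simp only [hw']
      split_ifs with h1
      · simp
      · by_cases h2 : ∃ n : ℕ, k = 2 ^ n
        · obtain ⟨n, rfl⟩ := h2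
          rw [wt_pow, inv_inv, norm_pow, Complex.norm_ofNat]
          refine pow_le_pow_right₀ (by norm_num) ?_
          by_contra h3
          exact h1 ⟨n - N, by rw [Nat.sub_add_cancel (by omega)]⟩
        · rw [wt, if_neg h2, inv_one, norm_one]
          exact one_le_pow₀ (by norm_num)
    obtain ⟨L, hL, hLn⟩ := exists_diag (fourierBasis (T := 1)) w' (2 ^ N) (by positivity) hb
    simp only [basis_eq] at hL
    refine ⟨2 ^ N * (1 + C), by positivity, fun f => ?_⟩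
    obtain ⟨u, h1, h2, h3⟩ := h f
    refine ⟨u, L (f - u), h1, hext _ _ fun k => ?_, ?_⟩
    · rw [hK, hL]
      simp only [hw']
      split_ifs with h4
      · obtain ⟨n, rfl⟩ := h4
        rw [h3]; simp
      · rw [← mul_assoc, mul_inv_cancel₀ (wt_ne k), one_mul]
    · refine (hLn _).trans ?_
      rw [mul_assoc]
      gcongr
      refine (norm_sub_le _ _).trans ?_
      linarith
  · intro f ε hε
    have h1 : Submodule.span ℂ (Set.range ch) ≤ K.range := by
      rw [Submodule.span_le]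
      rintro _ ⟨k, rfl⟩
      refine ⟨(wt k)⁻¹ • ch k, hext _ _ fun j => ?_⟩
      change ⟪ch j, K ((wt k)⁻¹ • ch k)⟫_ℂ = _
      rw [hK, inner_smul_right, orthonormal_iff_ite.1 ch_orth]
      split_ifs with h
      · subst h; rw [mul_one, mul_inv_cancel₀ (wt_ne j)]
      · simp
    have h2 : (Submodule.span ℂ (Set.range ch)).topologicalClosure = ⊤ :=
      span_fourierLp_closure_eq_top (by norm_num)
    have h3 : f ∈ (Submodule.span ℂ (Set.range ch)).topologicalClosure := by rw [h2]; trivial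
    rw [← SetLike.mem_coe, Submodule.topologicalClosure_coe, Metric.mem_closure_iff] at h3
    obtain ⟨g, hg, hfg⟩ := h3 ε hε
    obtain ⟨h, rfl⟩ := h1 hg
    exact ⟨h, by rw [← dist_eq_norm]; exact hfg.le⟩
  · intro f C h
    have hfi : Integrable f haar := (Lp.memLp f).integrable (by norm_num)
    have hfm : Measurable f := (Lp.stronglyMeasurable f).measurable
    have hbound : ∀ n : ℕ, ∫ x, ‖f x‖ ∂haar ≤ 4 * C * (1 / 2) ^ n := by
      intro n
      have e : ∫ x, ‖f x‖ ∂haar = ∫ x, ‖fourier (-(2 ^ n)) x • f x‖ ∂haar := by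
        refine integral_congr_ae (Filter.Eventually.of_forall fun x => ?_)
        simp only [norm_smul, fourier_apply, Circle.norm_coe, one_mul]
      rw [e, mul_assoc]
      refine integral_norm_le_of_setIntegral (hfi.fourier_smul _)
        ((fourier _).continuous.measurable.smul hfm) fun S hS => ?_
      obtain ⟨g, hg, hgn⟩ := h S hS
      have e2 : ∫ x in S, fourier (-(2 ^ n)) x • f x ∂haar = ⟪ch (2 ^ n), ind haar S f⟫_ℂ := by
        rw [inner_ind_right hS]
        refine integral_congr_ae (ae_restrict_of_ae ?_)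
        filter_upwards [ch_coe (2 ^ n)] with x h1
        rw [h1, RCLike.inner_apply, ← fourier_neg, smul_eq_mul, mul_comm]
      rw [e2, ← hg, hK, norm_mul, wt_pow, norm_inv, norm_pow, Complex.norm_ofNat, mul_comm,
        one_div, inv_pow]
      gcongr
      refine (norm_inner_le_norm _ _).trans ?_
      rw [ch_orth.1, one_mul]; exact hgn
    have hlim : Filter.Tendsto (fun n : ℕ => 4 * C * (1 / 2 : ℝ) ^ n) Filter.atTop (nhds 0) := by
      simpa using (tendsto_pow_atTop_nhds_zero_of_lt_one (r := (1 / 2 : ℝ)) (by norm_num)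
        (by norm_num)).const_mul (4 * C)
    have h0 : ∫ x, ‖f x‖ ∂haar = 0 :=
      le_antisymm (ge_of_tendsto' hlim hbound) (integral_nonneg fun _ => norm_nonneg _)
    rw [integral_eq_zero_iff_of_nonneg (fun _ => norm_nonneg _) hfi.norm] at h0
    ext1
    filter_upwards [h0, Lp.coeFn_zero ℂ 2 haar] with x h1 h2
    rw [h2]; simpa using h1

end Pool.Agent.P.MP_c2be6c_an
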